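import Mathlib

set_option autoImplicit false

namespace Pool.Agent.Results.MP_5e6778_nt.Growth

/-- `S` is a union of `r` blocks, a block being a nonempty set `{a, a+1, ..., b}` of consecutive
integers. -/
def IsUnionOfBlocks (r : ℕ) (S : Finset ℕ) : Prop :=
  ∃ a b : Fin r → ℕ, (∀ i, a i ≤ b i) ∧ S = Finset.univ.biUnion fun i => Finset.Icc (a i) (b i)

/-- `S` is the set of denominators of an `r`-block representation of `1`. -/
def IsBlockRep (r : ℕ) (S : Finset ℕ) : Prop :=
  (∀ x ∈ S, 0 < x) ∧ ∑ x ∈ S, (1 : ℚ) / (x : ℚ) = 1 ∧ IsUnionOfBlocks r S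

/-- A partial representation: `k` blocks, all elements at most `m`, and `1` minus the sum of the
reciprocals is `N / D`, where `m * N < D`. -/
def St (k : ℕ) (S : Finset ℕ) (m N D : ℕ) : Prop :=
  (∀ x ∈ S, 0 < x ∧ x ≤ m) ∧ 0 < m ∧ 0 < N ∧ m * N < D ∧ IsUnionOfBlocks k S ∧
    ∑ x ∈ S, (1 : ℚ) / (x : ℚ) + (N : ℚ) / (D : ℚ) = 1

theorem union_insert {k : ℕ} {S : Finset ℕ} (h : IsUnionOfBlocks k S) (y : ℕ) :
    IsUnionOfBlocks (k + 1) (insert y S) := by
  obtain ⟨a, b, hab, hS⟩ := h
  refine ⟨Fin.snoc a y, Fin.snoc b y, ?_, ?_⟩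
  · intro i
    induction i using Fin.lastCases with
    | last => simp only [Fin.snoc_last]; exact le_refl _
    | cast i => simp only [Fin.snoc_castSucc]; exact hab i
  · ext x
    simp only [Finset.mem_insert, hS, Finset.mem_biUnion, Finset.mem_univ, true_and,
      Finset.mem_Icc]
    constructor
    · rintro (h | ⟨i, hi⟩)
      · refine ⟨Fin.last k, ?_⟩
        simp only [Fin.snoc_last]
        omega
      · refine ⟨i.castSucc, ?_⟩
        simp only [Fin.snoc_castSucc]
        exact hi
    · rintro ⟨i, hi⟩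
      induction i using Fin.lastCases with
      | last => simp only [Fin.snoc_last] at hi; left; omega
      | cast i => simp only [Fin.snoc_castSucc] at hi; right; exact ⟨i, hi⟩

/-- Adding one more denominator `y > m` with `N y = D + N'`. -/
theorem st_step {k : ℕ} {S : Finset ℕ} {m N D N' y : ℕ} (h : St k S m N D) (hN' : 0 < N')
    (e : N * y = D + N') (hD : N' < D) : St (k + 1) (insert y S) y N' (D * y) := by
  obtain ⟨h1, hm, hN, hmN, hU, hsum⟩ := h
  have hmy : m < y := by
    by_contra hc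
    have : N * y ≤ N * m := Nat.mul_le_mul_left N (by omega)
    have h2 : N * m = m * N := Nat.mul_comm _ _
    omega
  have hy : y ∉ S := fun hy => by have := (h1 y hy).2; omega
  have hDpos : 0 < D := by omega
  refine ⟨?_, by omega, hN', ?_, union_insert hU y, ?_⟩
  · intro x hx
    rcases Finset.mem_insert.mp hx with rfl | hx
    · exact ⟨by omega, le_refl _⟩
    · exact ⟨(h1 x hx).1, by have := (h1 x hx).2; omega⟩
  · rw [Nat.mul_comm D y]
    exact Nat.mul_lt_mul_of_pos_left hD (by omega)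
  · rw [Finset.sum_insert hy]
    have hDq : (D : ℚ) ≠ 0 := by exact_mod_cast hDpos.ne'
    have hyq : (y : ℚ) ≠ 0 := by
      have : y ≠ 0 := by omega
      exact_mod_cast this
    have eq : (N : ℚ) * y = D + N' := by exact_mod_cast e
    have key : (1 : ℚ) / y + (N' : ℚ) / ((D * y : ℕ) : ℚ) = (N : ℚ) / D := by
      push_cast
      rw [div_add_div _ _ hyq (mul_ne_zero hDq hyq),
        div_eq_div_iff (mul_ne_zero hyq (mul_ne_zero hDq hyq)) hDq]
      linear_combination (-(D:ℚ)*y) * eq
    linarith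

/-- If the remainder is a unit fraction, we can stop. -/
theorem st_finish {k : ℕ} {S : Finset ℕ} {m D : ℕ} (h : St k S m 1 D) :
    IsBlockRep (k + 1) (insert D S) := by
  obtain ⟨h1, hm, hN, hmN, hU, hsum⟩ := h
  have hy : D ∉ S := fun hy => by have := (h1 D hy).2; omega
  refine ⟨?_, ?_, union_insert hU D⟩
  · intro x hx
    rcases Finset.mem_insert.mp hx with rfl | hx
    · omega
    · exact (h1 x hx).1
  · rw [Finset.sum_insert hy]
    push_cast at hsum
    linarith

theorem unit_ext : ∀ (j k : ℕ) (S : Finset ℕ) (m D : ℕ), St k S m 1 D →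
    ∃ (S' : Finset ℕ) (m' D' : ℕ), St (k + j) S' m' 1 D' ∧ D ^ (2 ^ j) ≤ D' := by
  intro j
  induction j with
  | zero => intro k S m D h; exact ⟨S, m, D, h, by simp⟩
  | succ j ih =>
    intro k S m D h
    have hD : 1 < D := by
      obtain ⟨_, hm, _, hmN, _, _⟩ := h
      omega
    have h1 := st_step h (N' := 1) (y := D + 1) Nat.one_pos (by ring) hD
    obtain ⟨S', m', D', h2, h3⟩ := ih _ _ _ _ h1
    refine ⟨S', m', D', ?_, ?_⟩
    · rw [show k + (j + 1) = k + 1 + j by ring]; exact h2
    · refine le_trans ?_ h3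
      rw [pow_succ 2 j, mul_comm, pow_mul]
      refine Nat.pow_le_pow_left ?_ _
      nlinarith

/-- The greedy process started at the remainder `N / D`: after any number `j ≥ N - 1` of further
denominators the remainder is a unit fraction `1 / D'`, with `(D / N) ^ (2 ^ j) ≤ D'`. -/
theorem greedy : ∀ (N : ℕ) (k : ℕ) (S : Finset ℕ) (m D : ℕ), St k S m N D →
    ∀ j : ℕ, N ≤ j + 1 → ∃ (S' : Finset ℕ) (m' D' : ℕ), St (k + j) S' m' 1 D' ∧
      D ^ (2 ^ j) ≤ D' * N ^ (2 ^ j) := by
  intro N
  induction N using Nat.strong_induction_on with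
  | _ N ih =>
    intro k S m D h j hj
    have hN : 0 < N := h.2.2.1
    have hm : 0 < m := h.2.1
    have hmN : m * N < D := h.2.2.2.1
    have hND : N < D := lt_of_le_of_lt (Nat.le_mul_of_pos_left N hm) hmN
    by_cases hdvd : N ∣ D
    · obtain ⟨q, rfl⟩ := hdvd
      have hmq : m < q := by
        by_contra hc
        have : N * q ≤ N * m := Nat.mul_le_mul_left N (by omega)
        have h2 : N * m = m * N := Nat.mul_comm _ _
        omega
      have hs : St k S m 1 q := by
        refine ⟨h.1, hm, Nat.one_pos, by omega, h.2.2.2.2.1, ?_⟩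
        have hNq : (N : ℚ) ≠ 0 := by exact_mod_cast hN.ne'
        have hqq : (q : ℚ) ≠ 0 := by
          have : q ≠ 0 := by omega
          exact_mod_cast this
        have e1 : ((1 : ℕ) : ℚ) / (q : ℚ) = (N : ℚ) / ((N * q : ℕ) : ℚ) := by
          push_cast
          field_simp
        rw [e1]
        exact h.2.2.2.2.2
      obtain ⟨S', m', D', h1, h2⟩ := unit_ext j k S m q hs
      refine ⟨S', m', D', h1, ?_⟩
      rw [mul_pow, mul_comm]
      exact Nat.mul_le_mul_right _ h2
    · have ht0 : 0 < D % N := Nat.pos_of_ne_zero fun h0 => hdvd (Nat.dvd_of_mod_eq_zero h0)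
      have htN : D % N < N := Nat.mod_lt _ hN
      have hdm := Nat.div_add_mod D N
      obtain ⟨j', rfl⟩ : ∃ j', j = j' + 1 := ⟨j - 1, by omega⟩
      have e : N * (D / N + 1) = D + (N - D % N) := by
        rw [mul_add, mul_one]; omega
      have h1 := st_step h (N' := N - D % N) (y := D / N + 1) (by omega) e (by omega)
      obtain ⟨S', m', D', h2, h3⟩ := ih (N - D % N) (by omega) _ _ _ _ h1 j' (by omega)
      refine ⟨S', m', D', ?_, ?_⟩
      · rw [show k + (j' + 1) = k + 1 + j' by ring]; exact h2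
      · set N' := N - D % N with hN'def
        set y := D / N + 1 with hydef
        have hN'pos : 0 < N' := by omega
        have hN'N : N' ≤ N := by omega
        have key : D ^ 2 * N' ≤ (D * y) * N ^ 2 := by
          have a1 : D * N' ≤ D * N := Nat.mul_le_mul_left D hN'N
          have a2 : D * N ≤ (N * y) * N := by rw [e]; exact Nat.mul_le_mul_right N (by omega)
          calc D ^ 2 * N' = D * (D * N') := by ring
            _ ≤ D * ((N * y) * N) := Nat.mul_le_mul_left D (a1.trans a2)
            _ = (D * y) * N ^ 2 := by ring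
        have hpow := Nat.pow_le_pow_left key (2 ^ j')
        rw [mul_pow, mul_pow] at hpow
        have e1 : D ^ (2 ^ (j' + 1)) = (D ^ 2) ^ (2 ^ j') := by rw [← pow_mul, pow_succ 2 j', mul_comm]
        have e2 : N ^ (2 ^ (j' + 1)) = (N ^ 2) ^ (2 ^ j') := by rw [← pow_mul, pow_succ 2 j', mul_comm]
        rw [e1, e2]
        have hpos : 0 < N' ^ (2 ^ j') := pow_pos hN'pos _
        refine le_of_mul_le_mul_right ?_ hpos
        calc (D ^ 2) ^ 2 ^ j' * N' ^ 2 ^ j' ≤ (D * y) ^ 2 ^ j' * (N ^ 2) ^ 2 ^ j' := hpow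
          _ ≤ (D' * N' ^ 2 ^ j') * (N ^ 2) ^ 2 ^ j' := Nat.mul_le_mul_right _ h3
          _ = D' * (N ^ 2) ^ 2 ^ j' * N' ^ 2 ^ j' := by ring

theorem sum_ge (n : ℕ) (hn : 2 ≤ n) :
    (4 * n).factorial ≤ ∑ x ∈ Finset.Icc n (4 * n - 1), (4 * n).factorial / x := by
  set D := (4 * n).factorial with hDdef
  have hu : 4 * n ∣ D := Nat.dvd_factorial (by omega) (le_refl _)
  obtain ⟨u, hu⟩ := hu
  have hsplit : Finset.Icc n (4 * n - 1) = Finset.Ico n (2 * n) ∪ Finset.Ico (2 * n) (4 * n) := by
    ext x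
    simp only [Finset.mem_Icc, Finset.mem_union, Finset.mem_Ico]
    omega
  have hdisj : Disjoint (Finset.Ico n (2 * n)) (Finset.Ico (2 * n) (4 * n)) := by
    rw [Finset.disjoint_left]
    intro x hx hx'
    simp only [Finset.mem_Ico] at hx hx'
    omega
  rw [hsplit, Finset.sum_union hdisj]
  have s1 : n * (D / (2 * n)) ≤ ∑ x ∈ Finset.Ico n (2 * n), D / x := by
    have : (Finset.Ico n (2 * n)).card • (D / (2 * n)) ≤ ∑ x ∈ Finset.Ico n (2 * n), D / x := by
      refine Finset.card_nsmul_le_sum _ _ _ ?_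
      intro x hx
      simp only [Finset.mem_Ico] at hx
      exact Nat.div_le_div_left (by omega) (by omega)
    rw [Nat.card_Ico, smul_eq_mul] at this
    rwa [show 2 * n - n = n by omega] at this
  have s2 : (2 * n) * (D / (4 * n)) ≤ ∑ x ∈ Finset.Ico (2 * n) (4 * n), D / x := by
    have : (Finset.Ico (2 * n) (4 * n)).card • (D / (4 * n)) ≤
        ∑ x ∈ Finset.Ico (2 * n) (4 * n), D / x := by
      refine Finset.card_nsmul_le_sum _ _ _ ?_
      intro x hx
      simp only [Finset.mem_Ico] at hx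
      exact Nat.div_le_div_left (by omega) (by omega)
    rw [Nat.card_Ico, smul_eq_mul] at this
    rwa [show 4 * n - 2 * n = 2 * n by omega] at this
  have d1 : D / (2 * n) = 2 * u := by
    rw [hu, show 4 * n * u = (2 * n) * (2 * u) by ring]
    exact Nat.mul_div_cancel_left _ (by omega)
  have d2 : D / (4 * n) = u := by
    rw [hu]
    exact Nat.mul_div_cancel_left _ (by omega)
  rw [d1] at s1
  rw [d2] at s2
  have : D = n * (2 * u) + 2 * n * u := by rw [hu]; ring
  omega

/-- The first block `{n, ..., b}`: the longest one starting at `n` with sum less than `1`. -/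
theorem first_block (n : ℕ) (hn : 2 ≤ n) : ∃ (S : Finset ℕ) (b N : ℕ),
    St 1 S b N (4 * n).factorial ∧ n * N ≤ (4 * n).factorial := by
  have hsum := sum_ge n hn
  set D := (4 * n).factorial with hDdef
  have hDpos : 0 < D := Nat.factorial_pos _
  let g : ℕ → ℕ := fun c => ∑ x ∈ Finset.Icc n c, D / x
  have hex : ∃ c, D ≤ g c := ⟨4 * n - 1, hsum⟩
  classical
  set c := Nat.find hex with hc
  have hcD : D ≤ g c := Nat.find_spec hex
  have hcmin : ∀ b < c, g b < D := fun b hb => not_le.mp (Nat.find_min hex hb)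
  have hc4 : c ≤ 4 * n - 1 := Nat.find_min' hex hsum
  have hcn : n < c := by
    by_contra hcon
    have h1 : g c ≤ D / n := by
      show ∑ x ∈ Finset.Icc n c, D / x ≤ D / n
      rcases Nat.lt_or_ge c n with h | h
      · rw [Finset.Icc_eq_empty (by omega)]; simp
      · have : c = n := by omega
        rw [this]; simp
    have h2 : D / n < D := Nat.div_lt_self hDpos (by omega)
    omega
  obtain ⟨b, hb⟩ : ∃ b, c = b + 1 := ⟨c - 1, by omega⟩
  have hgb : g b < D := hcmin b (by omega)
  have hgc : g (b + 1) = g b + D / (b + 1) := by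
    show ∑ x ∈ Finset.Icc n (b + 1), D / x = ∑ x ∈ Finset.Icc n b, D / x + D / (b + 1)
    rw [Finset.sum_Icc_succ_top (by omega)]
  rw [hb, hgc] at hcD
  have hNb : (D - g b) * (b + 1) ≤ D := by
    have h1 : D - g b ≤ D / (b + 1) := by omega
    calc (D - g b) * (b + 1) ≤ D / (b + 1) * (b + 1) := Nat.mul_le_mul_right _ h1
      _ ≤ D := Nat.div_mul_le_self _ _
  refine ⟨Finset.Icc n b, b, D - g b, ⟨?_, by omega, by omega, ?_, ?_, ?_⟩, ?_⟩
  · intro x hx
    simp only [Finset.mem_Icc] at hx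
    omega
  · have : b * (D - g b) < (D - g b) * (b + 1) := by
      rw [Nat.mul_comm b]
      exact Nat.mul_lt_mul_of_pos_left (by omega) (by omega)
    omega
  · refine ⟨fun _ => n, fun _ => b, fun _ => (by omega : n ≤ b), ?_⟩
    ext x
    simp
  · have hgq : ∑ x ∈ Finset.Icc n b, (1 : ℚ) / (x : ℚ) = (g b : ℚ) / (D : ℚ) := by
      have hDq : (D : ℚ) ≠ 0 := by exact_mod_cast hDpos.ne'
      rw [eq_div_iff hDq, Finset.sum_mul]
      show _ = ((∑ x ∈ Finset.Icc n b, D / x : ℕ) : ℚ)
      push_cast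
      refine Finset.sum_congr rfl ?_
      intro x hx
      simp only [Finset.mem_Icc] at hx
      have hxD : x ∣ D := Nat.dvd_factorial (by omega) (by omega)
      have hxq : (x : ℚ) ≠ 0 := by
        have : x ≠ 0 := by omega
        exact_mod_cast this
      rw [Nat.cast_div hxD hxq]
      ring
    rw [hgq, Nat.cast_sub hgb.le]
    have hDq : (D : ℚ) ≠ 0 := by exact_mod_cast hDpos.ne'
    field_simp
    ring
  · calc n * (D - g b) ≤ (b + 1) * (D - g b) := Nat.mul_le_mul_right _ (by omega)
      _ = (D - g b) * (b + 1) := Nat.mul_comm _ _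
      _ ≤ D := hNb

/-- For every `n ≥ 2` and every `r > (4n)!` there is an `r`-block representation of `1` with a
denominator at least `n ^ (2 ^ (r - 2))`. -/
theorem result : ∀ n : ℕ, 2 ≤ n → ∀ r : ℕ, (4 * n).factorial < r →
    ∃ S : Finset ℕ, IsBlockRep r S ∧ ∃ x ∈ S, n ^ (2 ^ (r - 2)) ≤ x := by
  intro n hn r hr
  obtain ⟨S, b, N, hS, hN⟩ := first_block n hn
  set D := (4 * n).factorial with hDdef
  have hNpos : 0 < N := hS.2.2.1
  have hND : N ≤ D := le_trans (Nat.le_mul_of_pos_left N (by omega)) hN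
  have hN1 : N + 1 ≤ n * N := by nlinarith
  obtain ⟨j, rfl⟩ : ∃ j, r = j + 2 := ⟨r - 2, by omega⟩
  obtain ⟨S', m', D', h1, h2⟩ := greedy N 1 S b D hS j (by omega)
  have h3 := st_finish h1
  rw [show 1 + j + 1 = j + 2 by ring] at h3
  refine ⟨insert D' S', h3, D', Finset.mem_insert_self _ _, ?_⟩
  rw [show j + 2 - 2 = j by omega]
  have h4 : (n * N) ^ (2 ^ j) ≤ D' * N ^ (2 ^ j) := le_trans (Nat.pow_le_pow_left hN _) h2
  rw [mul_pow] at h4
  exact le_of_mul_le_mul_right h4 (pow_pos hNpos _)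

end Pool.Agent.Results.MP_5e6778_nt.Growth
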