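import Mathlib

set_option autoImplicit false

namespace Pool.Agent.Results.MP_5e6778_nt.Negative

/-- `S` is a union of `r` blocks, a block being a nonempty set `{a, a+1, ..., b}` of consecutive
integers. -/
def IsUnionOfBlocks (r : ℕ) (S : Finset ℕ) : Prop :=
  ∃ a b : Fin r → ℕ, (∀ i, a i ≤ b i) ∧ S = Finset.univ.biUnion fun i => Finset.Icc (a i) (b i)

/-- `S` is the set of denominators of an `r`-block representation of `1`. -/
def IsBlockRep (r : ℕ) (S : Finset ℕ) : Prop :=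
  (∀ x ∈ S, 0 < x) ∧ ∑ x ∈ S, (1 : ℚ) / (x : ℚ) = 1 ∧ IsUnionOfBlocks r S

/-- The sequence `s_1 = 2`, `s_{n+1} = s_n ^ 2 - s_n + 1`, that is `2, 3, 7, 43, 1807, ...`
(indexed from `1`; the value at `0` is unused). -/
def sylv : ℕ → ℕ
  | 0 => 2
  | 1 => 2
  | (n + 2) => sylv (n + 1) * (sylv (n + 1) - 1) + 1

/-- A partial representation: `k` blocks, all elements at most `m < D`, and the sum of the
reciprocals is `1 - 1 / D`. -/
def St (k : ℕ) (S : Finset ℕ) (m D : ℕ) : Prop :=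
  (∀ x ∈ S, 0 < x ∧ x ≤ m) ∧ 0 < m ∧ m < D ∧ IsUnionOfBlocks k S ∧
    ∑ x ∈ S, (1 : ℚ) / (x : ℚ) + 1 / (D : ℚ) = 1

theorem union_Icc {k : ℕ} {S : Finset ℕ} (h : IsUnionOfBlocks k S) {c d : ℕ} (hcd : c ≤ d) :
    IsUnionOfBlocks (k + 1) (Finset.Icc c d ∪ S) := by
  obtain ⟨a, b, hab, hS⟩ := h
  refine ⟨Fin.snoc a c, Fin.snoc b d, ?_, ?_⟩
  · intro i
    induction i using Fin.lastCases with
    | last => simp only [Fin.snoc_last]; exact hcd
    | cast i => simp only [Fin.snoc_castSucc]; exact hab i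
  · ext x
    simp only [Finset.mem_union, hS, Finset.mem_biUnion, Finset.mem_univ, true_and,
      Finset.mem_Icc]
    constructor
    · rintro (h | ⟨i, hi⟩)
      · refine ⟨Fin.last k, ?_⟩
        simp only [Fin.snoc_last]
        omega
      · refine ⟨i.castSucc, ?_⟩
        simp only [Fin.snoc_castSucc]
        exact hi
    · rintro ⟨i, hi⟩
      induction i using Fin.lastCases with
      | last => simp only [Fin.snoc_last] at hi; left; omega
      | cast i => simp only [Fin.snoc_castSucc] at hi; right; exact ⟨i, hi⟩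

/-- Replace `1 / D` by `1 / (2D) + 1 / (2D+1) + 1 / (2D(2D+1))`. -/
theorem st_step {k : ℕ} {S : Finset ℕ} {m D : ℕ} (h : St k S m D) :
    St (k + 1) (Finset.Icc (2 * D) (2 * D + 1) ∪ S) (2 * D + 1) (2 * D * (2 * D + 1)) := by
  obtain ⟨h1, hm, hmD, hU, hsum⟩ := h
  have hdisj : Disjoint (Finset.Icc (2 * D) (2 * D + 1)) S := by
    rw [Finset.disjoint_left]
    intro x hx hx'
    simp only [Finset.mem_Icc] at hx
    have := (h1 x hx').2
    omega
  have hIcc : Finset.Icc (2 * D) (2 * D + 1) = {2 * D, 2 * D + 1} := by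
    ext x
    simp only [Finset.mem_Icc, Finset.mem_insert, Finset.mem_singleton]
    omega
  refine ⟨?_, by omega, ?_, union_Icc hU (by omega), ?_⟩
  · intro x hx
    rcases Finset.mem_union.mp hx with hx | hx
    · simp only [Finset.mem_Icc] at hx
      omega
    · exact ⟨(h1 x hx).1, by have := (h1 x hx).2; omega⟩
  · nlinarith
  · rw [Finset.sum_union hdisj, hIcc, Finset.sum_pair (by omega)]
    have hDq : (D : ℚ) ≠ 0 := by
      have : D ≠ 0 := by omega
      exact_mod_cast this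
    have hD2 : (2 * (D : ℚ) + 1) ≠ 0 := by positivity
    have key : (1 : ℚ) / ((2 * D : ℕ) : ℚ) + 1 / ((2 * D + 1 : ℕ) : ℚ) +
        1 / ((2 * D * (2 * D + 1) : ℕ) : ℚ) = 1 / (D : ℚ) := by
      push_cast
      field_simp
      ring
    linarith

/-- If the remainder is `1 / D`, we can stop. -/
theorem st_finish {k : ℕ} {S : Finset ℕ} {m D : ℕ} (h : St k S m D) :
    IsBlockRep (k + 1) (Finset.Icc D D ∪ S) := by
  obtain ⟨h1, hm, hmD, hU, hsum⟩ := h
  have hdisj : Disjoint (Finset.Icc D D) S := by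
    rw [Finset.disjoint_left]
    intro x hx hx'
    simp only [Finset.mem_Icc] at hx
    have := (h1 x hx').2
    omega
  refine ⟨?_, ?_, union_Icc hU (le_refl _)⟩
  · intro x hx
    rcases Finset.mem_union.mp hx with hx | hx
    · simp only [Finset.mem_Icc] at hx
      omega
    · exact (h1 x hx).1
  · rw [Finset.sum_union hdisj, Finset.Icc_self, Finset.sum_singleton]
    linarith

theorem st_base : St 1 (Finset.Icc 3 6) 6 20 := by
  refine ⟨?_, by norm_num, by norm_num, ?_, ?_⟩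
  · intro x hx
    simp only [Finset.mem_Icc] at hx
    omega
  · exact ⟨fun _ => 3, fun _ => 6, fun _ => (by norm_num : (3 : ℕ) ≤ 6), by ext x; simp⟩
  · rw [show Finset.Icc 3 6 = ({3, 4, 5, 6} : Finset ℕ) by decide]
    norm_num

theorem main : ∀ r : ℕ, ∃ (S : Finset ℕ) (m D : ℕ), St (r + 1) S m D ∧
    4 * D + 1 = 3 ^ (2 ^ (r + 2)) ∧ sylv (r + 3) ≤ D := by
  intro r
  induction r with
  | zero => exact ⟨_, _, _, st_base, by norm_num, by simp [sylv]⟩
  | succ r ih =>
    obtain ⟨S, m, D, h1, h2, h3⟩ := ih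
    refine ⟨_, _, _, st_step h1, ?_, ?_⟩
    · rw [show 3 ^ (2 ^ (r + 1 + 2)) = (3 ^ (2 ^ (r + 2))) ^ 2 by
        rw [← pow_mul, show r + 1 + 2 = r + 2 + 1 by ring, pow_succ 2 (r + 2)], ← h2]
      ring
    · rw [show r + 1 + 3 = (r + 3) + 1 by ring]
      show sylv (r + 3) * (sylv (r + 3) - 1) + 1 ≤ _
      have hD : 0 < D := by
        obtain ⟨_, _, hmD, _, _⟩ := h1
        omega
      have h4 : sylv (r + 3) * (sylv (r + 3) - 1) ≤ D * D :=
        Nat.mul_le_mul h3 (by omega)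
      nlinarith

/-- For every `r ≥ 2` there is an `r`-block representation of `1` having the denominator
`(3 ^ (2 ^ r) - 1) / 4`, and this number is larger than `s_{r+1} - 1`. -/
theorem result : ∀ r : ℕ, 2 ≤ r →
    sylv (r + 1) - 1 < (3 ^ (2 ^ r) - 1) / 4 ∧
      ∃ S : Finset ℕ, IsBlockRep r S ∧ (3 ^ (2 ^ r) - 1) / 4 ∈ S := by
  intro r hr
  obtain ⟨q, rfl⟩ : ∃ q, r = q + 2 := ⟨r - 2, by omega⟩
  obtain ⟨S, m, D, h1, h2, h3⟩ := main q
  have hD : (3 ^ (2 ^ (q + 2)) - 1) / 4 = D := by omega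
  rw [hD]
  refine ⟨?_, Finset.Icc D D ∪ S, st_finish h1, by simp⟩
  have hD0 : 0 < D := by
    obtain ⟨_, _, hmD, _, _⟩ := h1
    omega
  rw [show q + 2 + 1 = q + 3 by ring]
  omega

end Pool.Agent.Results.MP_5e6778_nt.Negative
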